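import Pool.Agent.Helper59.GP.P00
import Pool.Agent.Helper59.GP.P01
import Pool.Agent.Helper59.GP.P02
import Pool.Agent.Helper59.GP.P03
import Pool.Agent.Helper59.GP.P04
import Pool.Agent.Helper59.GP.P05
import Pool.Agent.Helper59.GP.P06
import Pool.Agent.Helper59.GP.P07
import Pool.Agent.Helper59.GP.P08
import Pool.Agent.Helper59.GP.P09
import Pool.Agent.Helper59.GP.P10
import Pool.Agent.Helper59.GP.P11
import Pool.Agent.Helper59.GP.P12
import Pool.Agent.Helper59.GP.P13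
import Pool.Agent.Helper59.GP.P14
import Pool.Agent.Helper59.GP.P15
import Pool.Agent.Helper59.GP.P16
import Pool.Agent.Helper59.GP.P17
import Pool.Agent.Helper59.GP.P18
import Pool.Agent.Helper59.GP.P19
import Pool.Agent.Helper59.GP.P20
import Pool.Agent.Helper59.GP.P21
import Pool.Agent.Helper59.GP.P22
import Pool.Agent.Helper59.GP.P23
import Pool.Agent.Helper59.GP.P24

/-!
MP_8ee768_co, project TH-Y': random access to the pieces of the glued tables by function trees, values as helper67's `gPiece`.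
-/

set_option autoImplicit false

namespace Pool.Agent.Helper59.GP

noncomputable def t0 (i : ℕ) : ℕ :=
  @Bool.rec (fun _ => ℕ) (R1 i) (R2 i) (Nat.ble (nat_lit 1024) i)

noncomputable def t1 (i : ℕ) : ℕ :=
  @Bool.rec (fun _ => ℕ) (R0 i) (t0 i) (Nat.ble (nat_lit 512) i)

noncomputable def t2 (i : ℕ) : ℕ :=
  @Bool.rec (fun _ => ℕ) (R4 i) (R5 i) (Nat.ble (nat_lit 2560) i)

noncomputable def t3 (i : ℕ) : ℕ :=
  @Bool.rec (fun _ => ℕ) (R3 i) (t2 i) (Nat.ble (nat_lit 2048) i)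

noncomputable def t4 (i : ℕ) : ℕ :=
  @Bool.rec (fun _ => ℕ) (t1 i) (t3 i) (Nat.ble (nat_lit 1536) i)

noncomputable def t5 (i : ℕ) : ℕ :=
  @Bool.rec (fun _ => ℕ) (R7 i) (R8 i) (Nat.ble (nat_lit 4096) i)

noncomputable def t6 (i : ℕ) : ℕ :=
  @Bool.rec (fun _ => ℕ) (R6 i) (t5 i) (Nat.ble (nat_lit 3584) i)

noncomputable def t7 (i : ℕ) : ℕ :=
  @Bool.rec (fun _ => ℕ) (R10 i) (R11 i) (Nat.ble (nat_lit 5632) i)

noncomputable def t8 (i : ℕ) : ℕ :=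
  @Bool.rec (fun _ => ℕ) (R9 i) (t7 i) (Nat.ble (nat_lit 5120) i)

noncomputable def t9 (i : ℕ) : ℕ :=
  @Bool.rec (fun _ => ℕ) (t6 i) (t8 i) (Nat.ble (nat_lit 4608) i)

noncomputable def t10 (i : ℕ) : ℕ :=
  @Bool.rec (fun _ => ℕ) (t4 i) (t9 i) (Nat.ble (nat_lit 3072) i)

noncomputable def t11 (i : ℕ) : ℕ :=
  @Bool.rec (fun _ => ℕ) (R13 i) (R14 i) (Nat.ble (nat_lit 7168) i)

noncomputable def t12 (i : ℕ) : ℕ :=
  @Bool.rec (fun _ => ℕ) (R12 i) (t11 i) (Nat.ble (nat_lit 6656) i)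

noncomputable def t13 (i : ℕ) : ℕ :=
  @Bool.rec (fun _ => ℕ) (R16 i) (R17 i) (Nat.ble (nat_lit 8704) i)

noncomputable def t14 (i : ℕ) : ℕ :=
  @Bool.rec (fun _ => ℕ) (R15 i) (t13 i) (Nat.ble (nat_lit 8192) i)

noncomputable def t15 (i : ℕ) : ℕ :=
  @Bool.rec (fun _ => ℕ) (t12 i) (t14 i) (Nat.ble (nat_lit 7680) i)

noncomputable def t16 (i : ℕ) : ℕ :=
  @Bool.rec (fun _ => ℕ) (R19 i) (R20 i) (Nat.ble (nat_lit 10240) i)

noncomputable def t17 (i : ℕ) : ℕ :=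
  @Bool.rec (fun _ => ℕ) (R18 i) (t16 i) (Nat.ble (nat_lit 9728) i)

noncomputable def t18 (i : ℕ) : ℕ :=
  @Bool.rec (fun _ => ℕ) (R21 i) (R22 i) (Nat.ble (nat_lit 11264) i)

noncomputable def t19 (i : ℕ) : ℕ :=
  @Bool.rec (fun _ => ℕ) (R23 i) (R24 i) (Nat.ble (nat_lit 12288) i)

noncomputable def t20 (i : ℕ) : ℕ :=
  @Bool.rec (fun _ => ℕ) (t18 i) (t19 i) (Nat.ble (nat_lit 11776) i)

noncomputable def t21 (i : ℕ) : ℕ :=
  @Bool.rec (fun _ => ℕ) (t17 i) (t20 i) (Nat.ble (nat_lit 10752) i)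

noncomputable def t22 (i : ℕ) : ℕ :=
  @Bool.rec (fun _ => ℕ) (t15 i) (t21 i) (Nat.ble (nat_lit 9216) i)

noncomputable def t23 (i : ℕ) : ℕ :=
  @Bool.rec (fun _ => ℕ) (t10 i) (t22 i) (Nat.ble (nat_lit 6144) i)

/-- piece `i`, 64 lanes of 210 bits -/
noncomputable def fPiece (i : ℕ) : ℕ := t23 i

end Pool.Agent.Helper59.GP
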