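import Pool.Agent.Helper59.GP.I00

/-!
MP_8ee768_co, project TH-Y': random access to the glued tables by function trees, values as helper67's `gInfo`, `gPiece`.
-/

set_option autoImplicit false

namespace Pool.Agent.Helper59.GP

noncomputable def g0 (i : ℕ) : ℕ :=
  @Bool.rec (fun _ => ℕ) w0 w1 (Nat.ble (nat_lit 1) i)

noncomputable def g1 (i : ℕ) : ℕ :=
  @Bool.rec (fun _ => ℕ) w3 w4 (Nat.ble (nat_lit 4) i)

noncomputable def g2 (i : ℕ) : ℕ :=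
  @Bool.rec (fun _ => ℕ) w2 (g1 i) (Nat.ble (nat_lit 3) i)

noncomputable def g3 (i : ℕ) : ℕ :=
  @Bool.rec (fun _ => ℕ) (g0 i) (g2 i) (Nat.ble (nat_lit 2) i)

noncomputable def g4 (i : ℕ) : ℕ :=
  @Bool.rec (fun _ => ℕ) w5 w6 (Nat.ble (nat_lit 6) i)

noncomputable def g5 (i : ℕ) : ℕ :=
  @Bool.rec (fun _ => ℕ) w8 w9 (Nat.ble (nat_lit 9) i)

noncomputable def g6 (i : ℕ) : ℕ :=
  @Bool.rec (fun _ => ℕ) w7 (g5 i) (Nat.ble (nat_lit 8) i)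

noncomputable def g7 (i : ℕ) : ℕ :=
  @Bool.rec (fun _ => ℕ) (g4 i) (g6 i) (Nat.ble (nat_lit 7) i)

noncomputable def g8 (i : ℕ) : ℕ :=
  @Bool.rec (fun _ => ℕ) (g3 i) (g7 i) (Nat.ble (nat_lit 5) i)

noncomputable def g9 (i : ℕ) : ℕ :=
  @Bool.rec (fun _ => ℕ) w10 w11 (Nat.ble (nat_lit 11) i)

noncomputable def g10 (i : ℕ) : ℕ :=
  @Bool.rec (fun _ => ℕ) w13 w14 (Nat.ble (nat_lit 14) i)

noncomputable def g11 (i : ℕ) : ℕ :=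
  @Bool.rec (fun _ => ℕ) w12 (g10 i) (Nat.ble (nat_lit 13) i)

noncomputable def g12 (i : ℕ) : ℕ :=
  @Bool.rec (fun _ => ℕ) (g9 i) (g11 i) (Nat.ble (nat_lit 12) i)

noncomputable def g13 (i : ℕ) : ℕ :=
  @Bool.rec (fun _ => ℕ) w15 w16 (Nat.ble (nat_lit 16) i)

noncomputable def g14 (i : ℕ) : ℕ :=
  @Bool.rec (fun _ => ℕ) w18 w19 (Nat.ble (nat_lit 19) i)

noncomputable def g15 (i : ℕ) : ℕ :=
  @Bool.rec (fun _ => ℕ) w17 (g14 i) (Nat.ble (nat_lit 18) i)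

noncomputable def g16 (i : ℕ) : ℕ :=
  @Bool.rec (fun _ => ℕ) (g13 i) (g15 i) (Nat.ble (nat_lit 17) i)

noncomputable def g17 (i : ℕ) : ℕ :=
  @Bool.rec (fun _ => ℕ) (g12 i) (g16 i) (Nat.ble (nat_lit 15) i)

noncomputable def g18 (i : ℕ) : ℕ :=
  @Bool.rec (fun _ => ℕ) (g8 i) (g17 i) (Nat.ble (nat_lit 10) i)

noncomputable def g19 (i : ℕ) : ℕ :=
  @Bool.rec (fun _ => ℕ) w20 w21 (Nat.ble (nat_lit 21) i)

noncomputable def g20 (i : ℕ) : ℕ :=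
  @Bool.rec (fun _ => ℕ) w23 w24 (Nat.ble (nat_lit 24) i)

noncomputable def g21 (i : ℕ) : ℕ :=
  @Bool.rec (fun _ => ℕ) w22 (g20 i) (Nat.ble (nat_lit 23) i)

noncomputable def g22 (i : ℕ) : ℕ :=
  @Bool.rec (fun _ => ℕ) (g19 i) (g21 i) (Nat.ble (nat_lit 22) i)

noncomputable def g23 (i : ℕ) : ℕ :=
  @Bool.rec (fun _ => ℕ) w25 w26 (Nat.ble (nat_lit 26) i)

noncomputable def g24 (i : ℕ) : ℕ :=
  @Bool.rec (fun _ => ℕ) w28 w29 (Nat.ble (nat_lit 29) i)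

noncomputable def g25 (i : ℕ) : ℕ :=
  @Bool.rec (fun _ => ℕ) w27 (g24 i) (Nat.ble (nat_lit 28) i)

noncomputable def g26 (i : ℕ) : ℕ :=
  @Bool.rec (fun _ => ℕ) (g23 i) (g25 i) (Nat.ble (nat_lit 27) i)

noncomputable def g27 (i : ℕ) : ℕ :=
  @Bool.rec (fun _ => ℕ) (g22 i) (g26 i) (Nat.ble (nat_lit 25) i)

noncomputable def g28 (i : ℕ) : ℕ :=
  @Bool.rec (fun _ => ℕ) w30 w31 (Nat.ble (nat_lit 31) i)

noncomputable def g29 (i : ℕ) : ℕ :=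
  @Bool.rec (fun _ => ℕ) w33 w34 (Nat.ble (nat_lit 34) i)

noncomputable def g30 (i : ℕ) : ℕ :=
  @Bool.rec (fun _ => ℕ) w32 (g29 i) (Nat.ble (nat_lit 33) i)

noncomputable def g31 (i : ℕ) : ℕ :=
  @Bool.rec (fun _ => ℕ) (g28 i) (g30 i) (Nat.ble (nat_lit 32) i)

noncomputable def g32 (i : ℕ) : ℕ :=
  @Bool.rec (fun _ => ℕ) w35 w36 (Nat.ble (nat_lit 36) i)

noncomputable def g33 (i : ℕ) : ℕ :=
  @Bool.rec (fun _ => ℕ) w38 w39 (Nat.ble (nat_lit 39) i)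

noncomputable def g34 (i : ℕ) : ℕ :=
  @Bool.rec (fun _ => ℕ) w37 (g33 i) (Nat.ble (nat_lit 38) i)

noncomputable def g35 (i : ℕ) : ℕ :=
  @Bool.rec (fun _ => ℕ) (g32 i) (g34 i) (Nat.ble (nat_lit 37) i)

noncomputable def g36 (i : ℕ) : ℕ :=
  @Bool.rec (fun _ => ℕ) (g31 i) (g35 i) (Nat.ble (nat_lit 35) i)

noncomputable def g37 (i : ℕ) : ℕ :=
  @Bool.rec (fun _ => ℕ) (g27 i) (g36 i) (Nat.ble (nat_lit 30) i)

noncomputable def g38 (i : ℕ) : ℕ :=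
  @Bool.rec (fun _ => ℕ) (g18 i) (g37 i) (Nat.ble (nat_lit 20) i)

noncomputable def g39 (i : ℕ) : ℕ :=
  @Bool.rec (fun _ => ℕ) w40 w41 (Nat.ble (nat_lit 41) i)

noncomputable def g40 (i : ℕ) : ℕ :=
  @Bool.rec (fun _ => ℕ) w43 w44 (Nat.ble (nat_lit 44) i)

noncomputable def g41 (i : ℕ) : ℕ :=
  @Bool.rec (fun _ => ℕ) w42 (g40 i) (Nat.ble (nat_lit 43) i)

noncomputable def g42 (i : ℕ) : ℕ :=
  @Bool.rec (fun _ => ℕ) (g39 i) (g41 i) (Nat.ble (nat_lit 42) i)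

noncomputable def g43 (i : ℕ) : ℕ :=
  @Bool.rec (fun _ => ℕ) w45 w46 (Nat.ble (nat_lit 46) i)

noncomputable def g44 (i : ℕ) : ℕ :=
  @Bool.rec (fun _ => ℕ) w48 w49 (Nat.ble (nat_lit 49) i)

noncomputable def g45 (i : ℕ) : ℕ :=
  @Bool.rec (fun _ => ℕ) w47 (g44 i) (Nat.ble (nat_lit 48) i)

noncomputable def g46 (i : ℕ) : ℕ :=
  @Bool.rec (fun _ => ℕ) (g43 i) (g45 i) (Nat.ble (nat_lit 47) i)

noncomputable def g47 (i : ℕ) : ℕ :=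
  @Bool.rec (fun _ => ℕ) (g42 i) (g46 i) (Nat.ble (nat_lit 45) i)

noncomputable def g48 (i : ℕ) : ℕ :=
  @Bool.rec (fun _ => ℕ) w50 w51 (Nat.ble (nat_lit 51) i)

noncomputable def g49 (i : ℕ) : ℕ :=
  @Bool.rec (fun _ => ℕ) w53 w54 (Nat.ble (nat_lit 54) i)

noncomputable def g50 (i : ℕ) : ℕ :=
  @Bool.rec (fun _ => ℕ) w52 (g49 i) (Nat.ble (nat_lit 53) i)

noncomputable def g51 (i : ℕ) : ℕ :=
  @Bool.rec (fun _ => ℕ) (g48 i) (g50 i) (Nat.ble (nat_lit 52) i)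

noncomputable def g52 (i : ℕ) : ℕ :=
  @Bool.rec (fun _ => ℕ) w55 w56 (Nat.ble (nat_lit 56) i)

noncomputable def g53 (i : ℕ) : ℕ :=
  @Bool.rec (fun _ => ℕ) w58 w59 (Nat.ble (nat_lit 59) i)

noncomputable def g54 (i : ℕ) : ℕ :=
  @Bool.rec (fun _ => ℕ) w57 (g53 i) (Nat.ble (nat_lit 58) i)

noncomputable def g55 (i : ℕ) : ℕ :=
  @Bool.rec (fun _ => ℕ) (g52 i) (g54 i) (Nat.ble (nat_lit 57) i)

noncomputable def g56 (i : ℕ) : ℕ :=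
  @Bool.rec (fun _ => ℕ) (g51 i) (g55 i) (Nat.ble (nat_lit 55) i)

noncomputable def g57 (i : ℕ) : ℕ :=
  @Bool.rec (fun _ => ℕ) (g47 i) (g56 i) (Nat.ble (nat_lit 50) i)

noncomputable def g58 (i : ℕ) : ℕ :=
  @Bool.rec (fun _ => ℕ) w60 w61 (Nat.ble (nat_lit 61) i)

noncomputable def g59 (i : ℕ) : ℕ :=
  @Bool.rec (fun _ => ℕ) w63 w64 (Nat.ble (nat_lit 64) i)

noncomputable def g60 (i : ℕ) : ℕ :=
  @Bool.rec (fun _ => ℕ) w62 (g59 i) (Nat.ble (nat_lit 63) i)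

noncomputable def g61 (i : ℕ) : ℕ :=
  @Bool.rec (fun _ => ℕ) (g58 i) (g60 i) (Nat.ble (nat_lit 62) i)

noncomputable def g62 (i : ℕ) : ℕ :=
  @Bool.rec (fun _ => ℕ) w65 w66 (Nat.ble (nat_lit 66) i)

noncomputable def g63 (i : ℕ) : ℕ :=
  @Bool.rec (fun _ => ℕ) w68 w69 (Nat.ble (nat_lit 69) i)

noncomputable def g64 (i : ℕ) : ℕ :=
  @Bool.rec (fun _ => ℕ) w67 (g63 i) (Nat.ble (nat_lit 68) i)

noncomputable def g65 (i : ℕ) : ℕ :=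
  @Bool.rec (fun _ => ℕ) (g62 i) (g64 i) (Nat.ble (nat_lit 67) i)

noncomputable def g66 (i : ℕ) : ℕ :=
  @Bool.rec (fun _ => ℕ) (g61 i) (g65 i) (Nat.ble (nat_lit 65) i)

noncomputable def g67 (i : ℕ) : ℕ :=
  @Bool.rec (fun _ => ℕ) w70 w71 (Nat.ble (nat_lit 71) i)

noncomputable def g68 (i : ℕ) : ℕ :=
  @Bool.rec (fun _ => ℕ) w73 w74 (Nat.ble (nat_lit 74) i)

noncomputable def g69 (i : ℕ) : ℕ :=
  @Bool.rec (fun _ => ℕ) w72 (g68 i) (Nat.ble (nat_lit 73) i)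

noncomputable def g70 (i : ℕ) : ℕ :=
  @Bool.rec (fun _ => ℕ) (g67 i) (g69 i) (Nat.ble (nat_lit 72) i)

noncomputable def g71 (i : ℕ) : ℕ :=
  @Bool.rec (fun _ => ℕ) w76 w77 (Nat.ble (nat_lit 77) i)

noncomputable def g72 (i : ℕ) : ℕ :=
  @Bool.rec (fun _ => ℕ) w75 (g71 i) (Nat.ble (nat_lit 76) i)

noncomputable def g73 (i : ℕ) : ℕ :=
  @Bool.rec (fun _ => ℕ) w79 w80 (Nat.ble (nat_lit 80) i)

noncomputable def g74 (i : ℕ) : ℕ :=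
  @Bool.rec (fun _ => ℕ) w78 (g73 i) (Nat.ble (nat_lit 79) i)

noncomputable def g75 (i : ℕ) : ℕ :=
  @Bool.rec (fun _ => ℕ) (g72 i) (g74 i) (Nat.ble (nat_lit 78) i)

noncomputable def g76 (i : ℕ) : ℕ :=
  @Bool.rec (fun _ => ℕ) (g70 i) (g75 i) (Nat.ble (nat_lit 75) i)

noncomputable def g77 (i : ℕ) : ℕ :=
  @Bool.rec (fun _ => ℕ) (g66 i) (g76 i) (Nat.ble (nat_lit 70) i)

noncomputable def g78 (i : ℕ) : ℕ :=
  @Bool.rec (fun _ => ℕ) (g57 i) (g77 i) (Nat.ble (nat_lit 60) i)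

noncomputable def g79 (i : ℕ) : ℕ :=
  @Bool.rec (fun _ => ℕ) (g38 i) (g78 i) (Nat.ble (nat_lit 40) i)

/-- `2 ^ 320 - 1` -/
def m320 : ℕ := nat_lit 0xffffffffffffffffffffffffffffffffffffffffffffffffffffffffffffffffffffffffffffffff

/-- `G + 2 ^ 285 * N + 2 ^ 301 * P` of the type `t` -/
noncomputable def fInfo (t : ℕ) : ℕ :=
  Nat.land (Nat.shiftRight (g79 (Nat.shiftRight t (nat_lit 7)))
    (Nat.mul (Nat.land t (nat_lit 127)) (nat_lit 320))) m320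

end Pool.Agent.Helper59.GP
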